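import Mathlib

/-!
# The configuration `-x + y = z`, `y = t x` is not Ramsey partition regular

A colouring of the positive integers with finitely many colours such that no infinite set `H` has
`b - a` and `b / a` of one and the same colour for all `a < b` in `H`. The colour of `x` consists of

* the parity of `x`,
* the residue modulo `4` of the odd part of `o(x) - 1`, where `o(x)` is the odd part of `x`,
* the truth value of `2 ^ L(x) ∣ o(x) - 1`, where `L(x)` is the least prime not dividing `x`,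
* the residue modulo `4` of the part of `x` made of the primes larger than `L(x)`.
-/

set_option autoImplicit false

namespace Pool.Agent.J6H48.RPR

/-- odd part -/
def o (x : ℕ) : ℕ := ordCompl[2] x

lemma o_mul (x y : ℕ) : o (x * y) = o x * o y := by
  unfold o
  exact Nat.ordCompl_mul x y 2

lemma o_odd {x : ℕ} (hx : x ≠ 0) : ¬ 2 ∣ o x := Nat.not_dvd_ordCompl Nat.prime_two hx

lemma o_pos {x : ℕ} (hx : x ≠ 0) : 0 < o x := Nat.ordCompl_pos 2 hx

lemma o_of_odd {x : ℕ} (hx : ¬ 2 ∣ x) : o x = x := by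
  unfold o
  rw [Nat.factorization_eq_zero_of_not_dvd hx]
  simp

lemma o_two_pow (k : ℕ) : o (2 ^ k) = 1 := by
  unfold o
  rw [Nat.Prime.factorization_pow Nat.prime_two]
  simp

lemma o_two_pow_mul {k m : ℕ} (hm : ¬ 2 ∣ m) : o (2 ^ k * m) = m := by
  rw [o_mul, o_two_pow, o_of_odd hm, one_mul]

lemma exists_two_pow_mul_o {x : ℕ} : 2 ^ (x.factorization 2) * o x = x :=
  Nat.ordProj_mul_ordCompl_eq_self x 2

/-- the least prime not dividing `x` -/
noncomputable def L (x : ℕ) : ℕ := sInf {p | p.Prime ∧ ¬ p ∣ x}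

lemma L_spec {x : ℕ} (hx : x ≠ 0) : (L x).Prime ∧ ¬ (L x) ∣ x := by
  have hne : {p : ℕ | p.Prime ∧ ¬ p ∣ x}.Nonempty := by
    obtain ⟨p, hp1, hp2⟩ := Nat.exists_infinite_primes (x + 1)
    exact ⟨p, hp2, fun h => by have := Nat.le_of_dvd (Nat.pos_of_ne_zero hx) h; omega⟩
  exact Nat.sInf_mem hne

lemma dvd_of_lt_L {x p : ℕ} (hp : p.Prime) (h : p < L x) : p ∣ x := by
  by_contra hc
  exact absurd (Nat.sInf_le (⟨hp, hc⟩ : p ∈ {p : ℕ | p.Prime ∧ ¬ p ∣ x})) (not_le.mpr h)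

lemma L_eq {x q : ℕ} (hq : q.Prime) (h : ¬ q ∣ x) (h' : ∀ p, p.Prime → p < q → p ∣ x) : L x = q := by
  apply le_antisymm
  · exact Nat.sInf_le ⟨hq, h⟩
  · have hx : x ≠ 0 := fun h0 => h (h0 ▸ dvd_zero q)
    by_contra hc
    exact (L_spec hx).2 (h' _ (L_spec hx).1 (not_le.mp hc))

/-- the part of `x` made of the primes `≥ l` -/
noncomputable def rough (l x : ℕ) : ℕ := x.factorization.prod fun p k => if l ≤ p then p ^ k else 1

lemma rough_mul (l : ℕ) {x y : ℕ} (hx : x ≠ 0) (hy : y ≠ 0) :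
    rough l (x * y) = rough l x * rough l y := by
  unfold rough
  rw [Nat.factorization_mul hx hy, Finsupp.prod_add_index']
  · intro p; simp
  · intro p a b; split_ifs <;> simp [pow_add]

lemma rough_eq_one {l x : ℕ} (h : ∀ p, p.Prime → p ∣ x → p < l) : rough l x = 1 := by
  unfold rough
  rw [Finsupp.prod]
  apply Finset.prod_eq_one
  intro p hp
  have hp' := Nat.prime_of_mem_primeFactors (by simpa using hp)
  have hpd : p ∣ x := Nat.dvd_of_mem_primeFactors (by simpa using hp)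
  rw [if_neg (not_le.mpr (h p hp' hpd))]

lemma rough_eq_self {l x : ℕ} (hx : x ≠ 0) (h : ∀ p, p.Prime → p ∣ x → l ≤ p) : rough l x = x := by
  unfold rough
  conv_rhs => rw [← Nat.prod_factorization_pow_eq_self hx]
  rw [Finsupp.prod, Finsupp.prod]
  apply Finset.prod_congr rfl
  intro p hp
  have hp' := Nat.prime_of_mem_primeFactors (by simpa using hp)
  have hpd : p ∣ x := Nat.dvd_of_mem_primeFactors (by simpa using hp)
  rw [if_pos (h p hp' hpd)]

lemma le_of_dvd_rough {l x p : ℕ} (hp : p.Prime) (h : p ∣ rough l x) : l ≤ p := by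
  unfold rough at h
  rw [Finsupp.prod] at h
  obtain ⟨q, hq, hq'⟩ := (Prime.dvd_finsetProd_iff hp.prime _).mp h
  have hqp := Nat.prime_of_mem_primeFactors (n := x) (by simpa using hq)
  split_ifs at hq' with hl
  · have := (Nat.prime_dvd_prime_iff_eq hp hqp).mp (hp.dvd_of_dvd_pow hq')
    rw [this]; exact hl
  · exact absurd (Nat.dvd_one.mp hq') hp.one_lt.ne'

open Classical in
/-- the colouring -/
noncomputable def col (x : ℕ) : Fin 2 × Fin 4 × Bool × Fin 4 :=
  (⟨x % 2, Nat.mod_lt _ (by norm_num)⟩, ⟨o (o x - 1) % 4, Nat.mod_lt _ (by norm_num)⟩,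
    decide (2 ^ (L x) ∣ o x - 1), ⟨rough (L x) x % 4, Nat.mod_lt _ (by norm_num)⟩)

lemma col_eq {x y : ℕ} (h : col x = col y) :
    x % 2 = y % 2 ∧ o (o x - 1) % 4 = o (o y - 1) % 4 ∧
      (2 ^ (L x) ∣ o x - 1 ↔ 2 ^ (L y) ∣ o y - 1) ∧ rough (L x) x % 4 = rough (L y) y % 4 := by
  unfold col at h
  simp only [Prod.mk.injEq, Fin.mk.injEq, decide_eq_decide] at h
  exact h

/-- an infinite set all of whose pairs behave badly for the colouring -/
structure Bad (H : Set ℕ) : Prop where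
  inf : H.Infinite
  pos : ∀ a ∈ H, 0 < a
  dvd : ∀ a ∈ H, ∀ b ∈ H, a < b → a ∣ b
  col : ∀ a ∈ H, ∀ b ∈ H, a < b → col (b - a) = col (b / a)

lemma Bad.mono {H K : Set ℕ} (h : Bad H) (hK : K ⊆ H) (hi : K.Infinite) : Bad K :=
  ⟨hi, fun a ha => h.pos a (hK ha), fun a ha b hb => h.dvd a (hK ha) b (hK hb),
    fun a ha b hb => h.col a (hK ha) b (hK hb)⟩

lemma exists_gt {H : Set ℕ} (h : H.Infinite) (N : ℕ) : ∃ a ∈ H, N < a := h.exists_gt N

/-- for `a < b` in `H` one has `b = a t` and `b - a = a (t - 1)` with even `t` -/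
lemma Bad.pair {H : Set ℕ} (h : Bad H) {a b : ℕ} (ha : a ∈ H) (hb : b ∈ H) (hab : a < b) :
    ∃ t, b = a * t ∧ 2 ∣ t ∧ 0 < t ∧ b - a = a * (t - 1) ∧ b / a = t ∧
      _root_.Pool.Agent.J6H48.RPR.col (a * (t - 1)) = _root_.Pool.Agent.J6H48.RPR.col t := by
  obtain ⟨t, ht⟩ := h.dvd a ha b hb hab
  have hapos := h.pos a ha
  have htpos : 0 < t := by
    rcases Nat.eq_zero_or_pos t with h0 | h0
    · rw [h0, mul_zero] at ht; omega
    · exact h0
  have h1 : b - a = a * (t - 1) := by rw [ht, Nat.mul_sub, mul_one]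
  have h2 : b / a = t := by rw [ht]; exact Nat.mul_div_cancel_left t hapos
  have h3 := h.col a ha b hb hab
  rw [h1, h2] at h3
  refine ⟨t, ht, ?_, htpos, h1, h2, h3⟩
  have h4 := (col_eq h3).1
  by_contra hodd
  have h5 : (t - 1) % 2 = 0 := by omega
  have h6 : (a * (t - 1)) % 2 = 0 := by rw [Nat.mul_mod, h5]; simp
  omega

lemma Bad.two_pow {H : Set ℕ} (h : Bad H) (N : ℕ) : ∃ B, ∀ b ∈ H, B < b → 2 ^ N ∣ b := by
  induction N with
  | zero => exact ⟨0, fun b _ _ => by simp⟩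
  | succ n ih =>
    obtain ⟨B, hB⟩ := ih
    obtain ⟨a, haH, haB⟩ := exists_gt h.inf B
    refine ⟨a, fun b hb hab => ?_⟩
    obtain ⟨t, ht, h2, -⟩ := h.pair haH hb hab
    rw [ht, pow_succ]
    exact mul_dvd_mul (hB a haH haB) h2

/-- `p` is unbounded on `H` -/
def Unb (H : Set ℕ) (p : ℕ) : Prop := ∀ N, ∃ a ∈ H, p ^ N ∣ a

lemma Bad.unb {H : Set ℕ} (h : Bad H) {p : ℕ} (hp : Unb H p) (N : ℕ) :
    ∃ B, ∀ b ∈ H, B < b → p ^ N ∣ b := by
  obtain ⟨a, haH, ha⟩ := hp N
  exact ⟨a, fun b hb hab => ha.trans (h.dvd a haH b hb hab)⟩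

lemma Bad.unb_two {H : Set ℕ} (h : Bad H) : Unb H 2 := by
  intro N
  obtain ⟨B, hB⟩ := h.two_pow N
  obtain ⟨a, haH, haB⟩ := exists_gt h.inf B
  exact ⟨a, haH, hB a haH haB⟩

/-- pigeonhole -/
lemma pigeon {H : Set ℕ} (h : H.Infinite) {ι : Type*} [Finite ι] (f : ℕ → ι) :
    ∃ i, {a ∈ H | f a = i}.Infinite := by
  by_contra hc
  push Not at hc
  apply h
  have : H ⊆ ⋃ i, {a ∈ H | f a = i} := fun a ha => Set.mem_iUnion.mpr ⟨f a, ha, rfl⟩
  exact (Set.finite_iUnion fun i => by simpa using hc i).subset this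

/-- eventually along `H`, all primes of a finite list divide the quotient -/
lemma Bad.quot {H : Set ℕ} (h : Bad H) {a : ℕ} (ha : a ∈ H) (p N : ℕ) (hp : p.Prime) (hu : Unb H p) :
    ∃ B, ∀ b ∈ H, B < b → ∀ t, b = a * t → p ^ N ∣ t := by
  obtain ⟨B, hB⟩ := h.unb hu (a.factorization p + N)
  refine ⟨B, fun b hb hBb t ht => ?_⟩
  have h1 := hB b hb hBb
  have hb0 : b ≠ 0 := (h.pos b hb).ne'
  have ha0 : a ≠ 0 := (h.pos a ha).ne'
  have ht0 : t ≠ 0 := by rintro rfl; simp at ht; exact hb0 ht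
  rw [hp.pow_dvd_iff_le_factorization hb0, ht, Nat.factorization_mul ha0 ht0] at h1
  rw [hp.pow_dvd_iff_le_factorization ht0]
  simp only [Finsupp.coe_add, Pi.add_apply] at h1
  omega

lemma Bad.quot_all {H : Set ℕ} (h : Bad H) {a : ℕ} (ha : a ∈ H) (M : ℕ)
    (hu : ∀ p, p.Prime → p < M → Unb H p) :
    ∃ B, ∀ b ∈ H, B < b → ∀ t, b = a * t → ∀ p, p.Prime → p < M → p ∣ t := by
  induction M with
  | zero => exact ⟨0, fun b _ _ t _ p _ hp => absurd hp (Nat.not_lt_zero _)⟩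
  | succ n ih =>
    obtain ⟨B, hB⟩ := ih fun p hp hpn => hu p hp (by omega)
    by_cases hn : n.Prime
    · obtain ⟨B', hB'⟩ := h.quot ha n 1 hn (hu n hn (by omega))
      refine ⟨max B B', fun b hb hbB t ht p hp hpn => ?_⟩
      rcases Nat.lt_succ_iff_lt_or_eq.mp hpn with h1 | h1
      · exact hB b hb (lt_of_le_of_lt (le_max_left _ _) hbB) t ht p hp h1
      · rw [h1]
        simpa using hB' b hb (lt_of_le_of_lt (le_max_right _ _) hbB) t ht
    · refine ⟨B, fun b hb hbB t ht p hp hpn => ?_⟩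
      rcases Nat.lt_succ_iff_lt_or_eq.mp hpn with h1 | h1
      · exact hB b hb hbB t ht p hp h1
      · exact absurd (h1 ▸ hp) hn

/-! ### Case A: the odd parts tend 2-adically to `-1` -/

lemma caseA {H : Set ℕ} (h : Bad H) (hA : ∀ k, {a ∈ H | ¬ 2 ^ k ∣ o a + 1}.Finite) : False := by
  -- choose `a`
  have h1 : ∀ k, ∃ B, ∀ b ∈ H, B < b → 2 ^ k ∣ o b + 1 := by
    intro k
    obtain ⟨B, hB⟩ := (hA k).bddAbove
    refine ⟨B, fun b hb hBb => ?_⟩
    by_contra hc
    exact absurd (hB ⟨hb, hc⟩) (not_le.mpr hBb)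
  obtain ⟨B2, hB2⟩ := h1 2
  obtain ⟨a, haH, haB⟩ := exists_gt h.inf B2
  have ha4 := hB2 a haH haB
  have ha0 : a ≠ 0 := (h.pos a haH).ne'
  obtain ⟨s, A, hAodd, hsA⟩ := Nat.exists_eq_two_pow_mul_odd (n := o a + 1) (by omega)
  have hs2 : 2 ≤ s := by
    by_contra hc
    have : s = 0 ∨ s = 1 := by omega
    rcases this with rfl | rfl
    · rw [pow_zero, one_mul] at hsA
      rw [hsA] at ha4
      have := hAodd.not_two_dvd_nat
      exact this (dvd_trans (by norm_num) ha4)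
    · rw [hsA] at ha4
      have : 2 ∣ A := by
        have : (2:ℕ) ^ 2 = 2 ^ 1 * 2 := by norm_num
        rw [this] at ha4
        exact Nat.dvd_of_mul_dvd_mul_left (by norm_num) ha4
      exact hAodd.not_two_dvd_nat this
  obtain ⟨B3, hB3⟩ := h1 (s + 2)
  obtain ⟨B4, hB4⟩ := h.quot haH 2 (s + 2) Nat.prime_two h.unb_two
  obtain ⟨b, hbH, hb⟩ := exists_gt h.inf (max a (max B3 B4))
  have hab : a < b := lt_of_le_of_lt (le_max_left _ _) hb
  obtain ⟨t, ht, h2t, htpos, hz, -, hcol⟩ := h.pair haH hbH hab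
  have hob := hB3 b hbH (lt_of_le_of_lt (le_trans (le_max_left _ _) (le_max_right _ _)) hb)
  have htd := hB4 b hbH (lt_of_le_of_lt (le_trans (le_max_right _ _) (le_max_right _ _)) hb) t ht
  obtain ⟨B, hB⟩ := hob
  obtain ⟨T, hT⟩ := htd
  -- odd parts
  have hot : o b = o a * o t := by rw [ht, o_mul]
  have hoz : o (a * (t - 1)) = o a * (t - 1) := by
    rw [o_mul, o_of_odd (x := t - 1) (by omega)]
  have hcol2 := (col_eq hcol).2.1
  have hoapos := o_pos ha0
  have hotpos := o_pos htpos.ne'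
  have hodda : ¬ 2 ∣ o a := o_odd ha0
  have hcop : Nat.Coprime (2 ^ s) (o a) := by
    apply Nat.Coprime.pow_left
    exact (Nat.Prime.coprime_iff_not_dvd Nat.prime_two).mpr hodda
  have hA2 : A % 2 = 1 := Nat.odd_iff.mp hAodd
  -- the colour of `t`
  obtain ⟨q, hq⟩ : ∃ q, o t = q + 1 := ⟨o t - 1, by omega⟩
  have e1 : o a * q + 2 ^ s * A = 2 ^ s * (4 * B) := by
    have h1 : o b = o a * q + o a := by rw [hot, hq]; ring
    have h2 : (2:ℕ) ^ (s + 2) * B = 2 ^ s * (4 * B) := by rw [pow_add]; ring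
    omega
  have e2 : 2 ^ s ∣ q := by
    have : 2 ^ s ∣ o a * q := by
      rw [← Nat.dvd_add_left (Dvd.intro A rfl), e1]
      exact Dvd.intro _ rfl
    exact hcop.dvd_of_dvd_mul_left this
  obtain ⟨Y, hY⟩ := e2
  have e3 : o a * Y + A = 4 * B := by
    have : 2 ^ s * (o a * Y + A) = 2 ^ s * (4 * B) := by
      rw [← e1, hY]; ring
    exact Nat.eq_of_mul_eq_mul_left (by positivity) this
  have ha3 : o a % 4 = 3 := by
    obtain ⟨w, hw⟩ := ha4
    omega
  have e4 : (3 * Y + A) % 4 = 0 := by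
    have : (o a * Y + A) % 4 = 0 := by rw [e3]; simp
    rw [Nat.add_mod, Nat.mul_mod, ha3] at this
    rw [Nat.add_mod, Nat.mul_mod]
    exact this
  have hYodd : ¬ 2 ∣ Y := by omega
  have c1 : o (o t - 1) = Y := by
    rw [hq, Nat.add_sub_cancel, hY, o_two_pow_mul hYodd]
  -- the colour of `z`
  have c2 : ∃ W, o a * (t - 1) - 1 = 2 ^ s * W ∧ W + A = 4 * (o a * T) := by
    have h1 : o a * (t - 1) + o a = o a * t := by
      obtain ⟨t', rfl⟩ : ∃ t', t = t' + 1 := ⟨t - 1, by omega⟩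
      simp; ring
    have h2 : o a * t = 2 ^ s * (4 * (o a * T)) := by rw [hT, pow_add]; ring
    have h3 : 2 ^ s * A ≤ 2 ^ s * (4 * (o a * T)) := by
      rw [← h2, ← hsA]
      have : o a * 2 ≤ o a * t := Nat.mul_le_mul_left _ (Nat.le_of_dvd htpos h2t)
      omega
    have h4 : A ≤ 4 * (o a * T) := Nat.le_of_mul_le_mul_left h3 (by positivity)
    refine ⟨4 * (o a * T) - A, ?_, by omega⟩
    have h5 : 2 ^ s * (4 * (o a * T) - A) = 2 ^ s * (4 * (o a * T)) - 2 ^ s * A := Nat.mul_sub _ _ _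
    rw [h5, ← h2, ← hsA]
    omega
  obtain ⟨W, hW1, hW2⟩ := c2
  have hWodd : ¬ 2 ∣ W := by omega
  rw [hoz, hW1, o_two_pow_mul hWodd, c1] at hcol2
  omega

/-! ### Case B1: some prime has bounded exponent -/

lemma caseB1 {H : Set ℕ} (h : Bad H) (k : ℕ) (hk : ∀ a ∈ H, ¬ 2 ^ k ∣ o a + 1)
    (hp : ∃ p, p.Prime ∧ ¬ Unb H p) : False := by
  classical
  set p := Nat.find hp with hpdef
  obtain ⟨hpp, hpu⟩ := Nat.find_spec hp
  rw [← hpdef] at hpp hpu
  have hmin : ∀ q, q.Prime → q < p → Unb H q := by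
    intro q hq hqp
    by_contra hc
    exact Nat.find_min hp hqp ⟨hq, hc⟩
  unfold Unb at hpu
  push Not at hpu
  obtain ⟨N, hN⟩ := hpu
  have hbd : ∀ a ∈ H, a.factorization p < N := by
    intro a ha
    by_contra hc
    exact hN a ha ((hpp.pow_dvd_iff_le_factorization (h.pos a ha).ne').mpr (by omega))
  -- pigeonhole
  obtain ⟨i1, hi1⟩ := pigeon h.inf (fun a => (Fin.ofNat (N + 1) (a.factorization p)))
  have h1 := h.mono (Set.sep_subset _ _) hi1
  obtain ⟨i2, hi2⟩ := pigeon h1.inf (fun a => (Fin.ofNat (2 ^ p) (o a)))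
  have h2 := h1.mono (Set.sep_subset _ _) hi2
  have : NeZero (Nat.factorial k) := ⟨Nat.factorial_ne_zero k⟩
  obtain ⟨i3, hi3⟩ := pigeon h2.inf (fun a => (Fin.ofNat (Nat.factorial k) a))
  have h3 := h2.mono (Set.sep_subset _ _) hi3
  obtain ⟨a, ha3⟩ := h3.inf.nonempty
  have ha2 := ha3.1
  have ha1 := ha2.1
  have haH := ha1.1
  have ha0 : a ≠ 0 := (h.pos a haH).ne'
  obtain ⟨B1, hB1⟩ := h.quot_all haH p hmin
  obtain ⟨B2, hB2⟩ := h.quot haH 2 (k + 1) Nat.prime_two h.unb_two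
  obtain ⟨b, hb3, hb⟩ := exists_gt h3.inf (max a (max B1 B2))
  have hb2 := hb3.1
  have hb1 := hb2.1
  have hbH := hb1.1
  have hab : a < b := lt_of_le_of_lt (le_max_left _ _) hb
  have hb0 : b ≠ 0 := (h.pos b hbH).ne'
  obtain ⟨t, ht, h2t, htpos, hz, -, hcol⟩ := h.pair haH hbH hab
  have hq := hB1 b hbH (lt_of_le_of_lt (le_trans (le_max_left _ _) (le_max_right _ _)) hb) t ht
  have htd := hB2 b hbH (lt_of_le_of_lt (le_trans (le_max_right _ _) (le_max_right _ _)) hb) t ht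
  have ht0 : t ≠ 0 := htpos.ne'
  -- `p` does not divide `t`
  have hpt : ¬ p ∣ t := by
    have e : a.factorization p = b.factorization p := by
      have e1 := ha1.2
      have e2 := hb1.2
      have e3 : (Fin.ofNat (N + 1) (a.factorization p)).val =
        (Fin.ofNat (N + 1) (b.factorization p)).val := by
        rw [e1, e2]
      simp only [Fin.ofNat] at e3
      have g1 := hbd a haH
      have g2 := hbd b hbH
      rw [Nat.mod_eq_of_lt (by omega), Nat.mod_eq_of_lt (by omega)] at e3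
      exact e3
    intro hd
    have hf : 1 ≤ t.factorization p :=
      (hpp.dvd_iff_one_le_factorization ht0).mp hd
    have : b.factorization p = a.factorization p + t.factorization p := by
      rw [ht, Nat.factorization_mul ha0 ht0]; rfl
    omega
  have hLt : L t = p := L_eq hpp hpt hq
  -- the odd part of `t` is `1` modulo `2 ^ p`
  have hot : o b = o a * o t := by rw [ht, o_mul]
  have hmod : o a % 2 ^ p = o b % 2 ^ p := by
    have e1 := ha2.2
    have e2 := hb2.2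
    have e3 : (Fin.ofNat (2 ^ p) (o a)).val = (Fin.ofNat (2 ^ p) (o b)).val := by rw [e1, e2]
    simpa [Fin.ofNat] using e3
  have hcop : Nat.Coprime (2 ^ p) (o a) := by
    apply Nat.Coprime.pow_left
    exact (Nat.Prime.coprime_iff_not_dvd Nat.prime_two).mpr (o_odd ha0)
  have hRt : 2 ^ (L t) ∣ o t - 1 := by
    rw [hLt]
    have e1 : 2 ^ p ∣ o b - o a := (Nat.modEq_iff_dvd' (by
      rw [hot]; exact Nat.le_mul_of_pos_right _ (o_pos ht0))).mp hmod
    rw [hot] at e1
    have e2 : o a * o t - o a = o a * (o t - 1) := by rw [Nat.mul_sub, mul_one]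
    rw [e2] at e1
    exact hcop.dvd_of_dvd_mul_left e1
  have hcol3 := (col_eq hcol).2.2.1
  have hRz := hcol3.mpr hRt
  -- `L z ≥ k`
  have hz0 : a * (t - 1) ≠ 0 := by
    have : 0 < t - 1 := by
      have := Nat.le_of_dvd htpos h2t
      omega
    positivity
  have hkz : Nat.factorial k ∣ a * (t - 1) := by
    rw [← hz]
    have e1 := ha3.2
    have e2 := hb3.2
    have e3 : (Fin.ofNat (Nat.factorial k) a).val = (Fin.ofNat (Nat.factorial k) b).val := by
      rw [e1, e2]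
    have e4 : a % Nat.factorial k = b % Nat.factorial k := by simpa [Fin.ofNat] using e3
    exact (Nat.modEq_iff_dvd' hab.le).mp e4
  have hLz : k ≤ L (a * (t - 1)) := by
    by_contra hc
    have hs := L_spec hz0
    exact hs.2 (dvd_trans (Nat.dvd_factorial hs.1.pos (by omega)) hkz)
  have hz2 : 2 ^ k ∣ o (a * (t - 1)) - 1 := dvd_trans (pow_dvd_pow 2 hLz) hRz
  have hoz : o (a * (t - 1)) = o a * (t - 1) := by
    rw [o_mul, o_of_odd (x := t - 1) (by omega)]
  rw [hoz] at hz2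
  have htk : 2 ^ k ∣ o a * t := dvd_mul_of_dvd_right (dvd_trans (pow_dvd_pow 2 (by omega)) htd) _
  have hoapos := o_pos ha0
  have e5 : o a * t = (o a * (t - 1) - 1) + (o a + 1) := by
    have h1 : o a * (t - 1) + o a = o a * t := by
      obtain ⟨t', rfl⟩ : ∃ t', t = t' + 1 := ⟨t - 1, by omega⟩
      simp; ring
    have h2 : 0 < o a * (t - 1) := by
      have := Nat.le_of_dvd htpos h2t
      have : 0 < t - 1 := by omega
      positivity
    omega
  rw [e5] at htk
  exact hk a haH ((Nat.dvd_add_right hz2).mp htk)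

/-! ### Case B2: all primes have unbounded exponents -/

lemma caseB2 {H : Set ℕ} (h : Bad H) (hp : ∀ p, p.Prime → Unb H p) : False := by
  classical
  obtain ⟨i, hi⟩ := pigeon h.inf (fun a => (Fin.ofNat 4 (rough (L a) a)))
  have h1 := h.mono (Set.sep_subset _ _) hi
  obtain ⟨B0, hB0⟩ := h.two_pow 1
  obtain ⟨a, ha1, haB0⟩ := exists_gt h1.inf B0
  have haH := ha1.1
  have ha0 : a ≠ 0 := (h.pos a haH).ne'
  have h2a : 2 ∣ a := by simpa using hB0 a haH haB0
  obtain ⟨B1, hB1⟩ := h.quot_all haH (max a (L a) + 1) (fun p hpp _ => hp p hpp)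
  obtain ⟨B2, hB2⟩ := h.quot haH 2 2 Nat.prime_two h.unb_two
  obtain ⟨b, hb1, hb⟩ := exists_gt h1.inf (max a (max B1 B2))
  have hbH := hb1.1
  have hab : a < b := lt_of_le_of_lt (le_max_left _ _) hb
  have hb0 : b ≠ 0 := (h.pos b hbH).ne'
  obtain ⟨t, ht, h2t, htpos, hz, -, hcol⟩ := h.pair haH hbH hab
  have hq := hB1 b hbH (lt_of_le_of_lt (le_trans (le_max_left _ _) (le_max_right _ _)) hb) t ht
  have h4t := hB2 b hbH (lt_of_le_of_lt (le_trans (le_max_right _ _) (le_max_right _ _)) hb) t ht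
  have ht0 : t ≠ 0 := htpos.ne'
  have hLa := L_spec ha0
  have hLb := L_spec hb0
  -- `L t = L b`
  have hLbig : max a (L a) < L b := by
    by_contra hc
    have h5 := hq (L b) hLb.1 (by omega)
    exact hLb.2 (ht ▸ dvd_mul_of_dvd_right h5 a)
  have hLt : L t = L b := by
    apply L_eq hLb.1
    · intro hd
      exact hLb.2 (ht ▸ dvd_mul_of_dvd_right hd a)
    · intro p hpp hpL
      have h6 : p ∣ a * t := ht ▸ dvd_of_lt_L hpp hpL
      rcases hpp.dvd_mul.mp h6 with h7 | h7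
      · exact hq p hpp (by
          have := Nat.le_of_dvd (Nat.pos_of_ne_zero ha0) h7
          omega)
      · exact h7
  have hrt : rough (L t) t = rough (L b) b := by
    rw [hLt]
    conv_rhs => rw [ht, rough_mul _ ha0 ht0]
    rw [rough_eq_one (l := L (a * t)) (x := a), one_mul, ← ht]
    intro p hpp hpa
    have := Nat.le_of_dvd (Nat.pos_of_ne_zero ha0) hpa
    rw [← ht]
    omega
  -- `L z = L a`
  have htm : 0 < t - 1 := by
    have := Nat.le_of_dvd htpos h2t
    omega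
  have hcopr : ∀ p, p.Prime → p < max a (L a) + 1 → ¬ p ∣ t - 1 := by
    intro p hpp hpl hd
    have h7 := hq p hpp hpl
    have h8 : p ∣ 1 := by
      have : t = (t - 1) + 1 := by omega
      rw [this] at h7
      exact (Nat.dvd_add_right hd).mp h7
    exact hpp.one_lt.ne' (Nat.dvd_one.mp h8)
  have hLz : L (a * (t - 1)) = L a := by
    apply L_eq hLa.1
    · intro hd
      rcases hLa.1.dvd_mul.mp hd with h7 | h7
      · exact hLa.2 h7
      · exact hcopr _ hLa.1 (by omega) h7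
    · intro p hpp hpL
      exact dvd_mul_of_dvd_left (dvd_of_lt_L hpp hpL) _
  have hrz : rough (L (a * (t - 1))) (a * (t - 1)) = rough (L a) a * (t - 1) := by
    rw [hLz, rough_mul _ ha0 htm.ne', rough_eq_self (l := L a) (x := t - 1) htm.ne']
    intro p hpp hpd
    by_contra hc
    exact hcopr p hpp (by omega) hpd
  have hcol4 := (col_eq hcol).2.2.2
  rw [hrz, hrt] at hcol4
  have hab4 : rough (L a) a % 4 = rough (L b) b % 4 := by
    have e1 := ha1.2
    have e2 := hb1.2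
    have e3 : (Fin.ofNat 4 (rough (L a) a)).val = (Fin.ofNat 4 (rough (L b) b)).val := by
      rw [e1, e2]
    simpa [Fin.ofNat] using e3
  rw [← hab4] at hcol4
  have hodd : ¬ 2 ∣ rough (L a) a := by
    intro hd
    have h8 := le_of_dvd_rough Nat.prime_two hd
    have h9 : L a = 2 := le_antisymm h8 hLa.1.two_le
    exact hLa.2 (h9 ▸ h2a)
  obtain ⟨w, hw⟩ := h4t
  have e9 : (t - 1) % 4 = 3 := by omega
  rw [Nat.mul_mod, e9] at hcol4
  omega

/-- There is no bad set for the colouring `col`. -/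
theorem no_bad (H : Set ℕ) : ¬ Bad H := by
  intro h
  by_cases hA : ∀ k, {a ∈ H | ¬ 2 ^ k ∣ o a + 1}.Finite
  · exact caseA h hA
  · push Not at hA
    obtain ⟨k, hk⟩ := hA
    have h1 : Bad {a ∈ H | ¬ 2 ^ k ∣ o a + 1} := h.mono (Set.sep_subset _ _) hk
    by_cases hB : ∃ p, p.Prime ∧ ¬ Unb {a ∈ H | ¬ 2 ^ k ∣ o a + 1} p
    · exact caseB1 h1 k (fun a ha => ha.2) hB
    · push Not at hB
      exact caseB2 h1 hB

end Pool.Agent.J6H48.RPR
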