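import Mathlib

/-!
# The configuration `x + y = z`, `y = t x` is Ramsey partition regular

Let `U` be an ultrafilter on the positive integers with `U + U = U`. It contains all sets `k ℕ`. For
`x ≥ 1` let `ψ x` be the colour of `y / x` for `U`-almost all `y`, and let `ℓ` be the value of `ψ x`
for `U`-almost all `x`. Choose `x₀` with `ψ x₀ = ℓ`. Then for `U`-almost all `x`, for `U`-almost all
`y`, the numbers `x / x₀`, `(x + y) / x₀` and `y / x = (y / x₀) / (x / x₀)` have the colour `ℓ`.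
-/

set_option autoImplicit false

namespace Pool.Agent.J6H48.RPR

open Filter

attribute [local instance] Ultrafilter.mul Ultrafilter.add

lemma exists_idem : ∃ U : Ultrafilter ℕ+, U + U = U := by
  obtain ⟨U, hU, -⟩ := Hindman.exists_idempotent_ultrafilter_le_FS (M := ℕ+) (Stream'.const 1)
  exact ⟨U, hU⟩

/-- a map to a finite type is constant almost everywhere -/
lemma ae_const {α ι : Type*} [Finite ι] (U : Ultrafilter α) (f : α → ι) :
    ∃ i, ∀ᶠ x in (U : Filter α), f x = i := by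
  obtain ⟨i, hi⟩ := Ultrafilter.eq_pure_of_finite (U.map f)
  refine ⟨i, ?_⟩
  have h : ({i} : Set ι) ∈ U.map f := by rw [hi]; exact Ultrafilter.mem_pure.mpr rfl
  exact h

lemma ae_dvd {U : Ultrafilter ℕ+} (hU : U + U = U) (k : ℕ+) : ∀ᶠ x in (U : Filter ℕ+), k ∣ x := by
  have : NeZero (k : ℕ) := ⟨k.ne_zero⟩
  obtain ⟨g, hg⟩ := ae_const U (fun x : ℕ+ => ((x : ℕ) : ZMod (k : ℕ)))
  have h2 : ∀ᶠ x in (U : Filter ℕ+), ∀ᶠ y in (U : Filter ℕ+),
      (((x + y : ℕ+) : ℕ) : ZMod (k : ℕ)) = g := by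
    have h : ∀ᶠ x : ℕ+ in ((U + U : Ultrafilter ℕ+) : Filter ℕ+), ((x : ℕ) : ZMod (k : ℕ)) = g := by
      rw [hU]; exact hg
    exact (Ultrafilter.eventually_add U U _).mp h
  obtain ⟨x, hx, hxg⟩ := (h2.and hg).exists
  obtain ⟨y, hy, hyg⟩ := (hx.and hg).exists
  have h0 : g = 0 := by
    rw [PNat.add_coe, Nat.cast_add, hxg, hyg] at hy
    simpa using hy
  filter_upwards [hg] with z hz
  rw [h0, ZMod.natCast_eq_zero_iff] at hz
  exact PNat.dvd_iff.mpr hz

theorem phi3 (r : ℕ) (c : ℕ+ → Fin r) : ∃ (j : Fin r) (f : ℕ → ℕ+), StrictMono f ∧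
    (∀ n, c (f n) = j) ∧
    ∀ m n, m < n → ∃ t : ℕ+, f n = t * f m ∧ c t = j ∧ c (f m + f n) = j := by
  obtain ⟨U, hU⟩ := exists_idem
  have hψ : ∀ x : ℕ+, ∃ l, ∀ᶠ y in (U : Filter ℕ+), c (y.divExact x) = l :=
    fun x => ae_const U _
  choose ψ hψ using hψ
  obtain ⟨l, hl⟩ := ae_const U ψ
  obtain ⟨x₀, hx₀⟩ := hl.exists
  have h0 : ∀ᶠ m in (U : Filter ℕ+), c (m.divExact x₀) = l := by
    have := hψ x₀
    rw [hx₀] at this
    exact this
  have hsum : ∀ᶠ x in (U : Filter ℕ+), ∀ᶠ y in (U : Filter ℕ+),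
      c ((x + y).divExact x₀) = l := by
    have h : ∀ᶠ x : ℕ+ in ((U + U : Ultrafilter ℕ+) : Filter ℕ+), c (x.divExact x₀) = l := by
      rw [hU]; exact h0
    exact (Ultrafilter.eventually_add U U _).mp h
  have key := exists_seq_of_forall_finset_exists
    (P := fun x : ℕ+ => x₀ ∣ x ∧ ψ x = l ∧ c (x.divExact x₀) = l ∧
      ∀ᶠ y in (U : Filter ℕ+), c ((x + y).divExact x₀) = l)
    (r := fun x y : ℕ+ => x ∣ y ∧ x < y ∧ c (y.divExact x) = l ∧ c ((x + y).divExact x₀) = l)
    (by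
      intro s hs
      have h1 : ∀ᶠ y in (U : Filter ℕ+), x₀ ∣ y ∧ ψ y = l ∧ c (y.divExact x₀) = l ∧
          ∀ᶠ z in (U : Filter ℕ+), c ((y + z).divExact x₀) = l :=
        (ae_dvd hU x₀).and (hl.and (h0.and hsum))
      have h2 : ∀ᶠ y in (U : Filter ℕ+), ∀ x ∈ s,
          x ∣ y ∧ x < y ∧ c (y.divExact x) = l ∧ c ((x + y).divExact x₀) = l := by
        rw [Filter.eventually_all_finset]
        intro x hx
        obtain ⟨-, g2, -, g4⟩ := hs x hx
        have g5 := hψ x
        rw [g2] at g5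
        filter_upwards [ae_dvd hU x, ae_dvd hU (x + 1), g5, g4] with y a1 a2 a3 a4
        refine ⟨a1, ?_, a3, a4⟩
        exact lt_of_lt_of_le (PNat.lt_add_right x 1) (PNat.le_of_dvd a2)
      exact (h1.and h2).exists)
  obtain ⟨F, hF, hrel⟩ := key
  have hmul : ∀ n, x₀ * (F n).divExact x₀ = F n := fun n => PNat.mul_div_exact (hF n).1
  refine ⟨l, fun n => (F n).divExact x₀, ?_, fun n => (hF n).2.2.1, ?_⟩
  · intro m n hmn
    have h1 := (hrel m n hmn).2.1
    rw [← hmul m, ← hmul n] at h1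
    exact lt_of_mul_lt_mul_left' h1
  · intro m n hmn
    obtain ⟨g1, g2, g3, g4⟩ := hrel m n hmn
    refine ⟨(F n).divExact (F m), ?_, g3, ?_⟩
    · have h1 := PNat.mul_div_exact g1
      have h2 : x₀ * ((F n).divExact (F m) * (F m).divExact x₀) = x₀ * (F n).divExact x₀ := by
        rw [hmul n]
        calc x₀ * ((F n).divExact (F m) * (F m).divExact x₀)
            = (x₀ * (F m).divExact x₀) * (F n).divExact (F m) := by
              rw [mul_comm ((F n).divExact (F m)), mul_assoc]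
          _ = F m * (F n).divExact (F m) := by rw [hmul m]
          _ = F n := h1
      exact (mul_left_cancel h2).symm
    · have h2 : (F m + F n).divExact x₀ = (F m).divExact x₀ + (F n).divExact x₀ := by
        apply mul_left_cancel (a := x₀)
        rw [PNat.mul_div_exact, mul_add, hmul m, hmul n]
        have a1 := PNat.dvd_iff.mp (hF m).1
        have a2 := PNat.dvd_iff.mp (hF n).1
        exact PNat.dvd_iff.mpr (by rw [PNat.add_coe]; exact dvd_add a1 a2)
      rw [← h2]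
      exact g4

end Pool.Agent.J6H48.RPR
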